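import Pool.Agent.H416.LG.Neg
import Pool.Agent.H416.WR.Props

set_option autoImplicit false

/-!
# Chern characters of the negative K-groups `K_{-r}(R[G])`, groups with linear centralisers

Let `R` be a ring, `G` a group and `r ≥ 1`. The group `K_{-r}(R[G])` is a quotient of
`K_0(R[G][t₁^±1, …, t_r^±1]) = K_0(R[G × ℤ ^ r])`, so its elements are given by the idempotent
matrices over `R[G × ℤ ^ r]`, and its Chern characters by the cycles of even dimension over
`R[G × ℤ ^ r]` in the sense of Connes (for example by the products of the cycles `(Ω, δ, T)` over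
`R[G]` of dimension `N ≡ r` modulo `2` with the fundamental cycle of the torus, that is with values
`T (res (e (δe) ^ (2 m)))`, `2 m = N + r`). If `K_{-r}(R[G]) = 0` for the regular rings
`R` and the torsion-free groups `G`, then these characters vanish. We prove:

(1) For all groups `G` and all rings `R`, the components of the values at the conjugacy classes of
`(g, l)` are torsion elements if `g` is `Good` or `l ≠ 0`.

(2) If all elements `g ≠ 1` of `G` are `Good`, the values with arbitrary coefficient rings are
the components at the unit element, which come from the homology of `G × ℤ ^ r` with coefficients in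
`R`.

(3) If `R` is in addition a field of characteristic zero, the values in positive dimensions are zero,
so the Chern characters of `K_{-r}(R[G])` are zero.

`Good G g`: `g` has infinite order and each finitely generated subgroup `H` of `G` containing `g` has
one of the properties

* `LinC`: the centraliser of `g` in `H` has a representation of finite degree over some field, of any
  characteristic, in which `g` has infinite order;
* `CohC`: the centraliser of `g` in `H` has a homomorphism `f` to a group `C'` (for example to itself) such
  that `f g` is central of infinite order and `H^(2 j + 2)(C' / ⟨f g⟩; ℚ) = 0` for some `j ≥ 0`; for example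
  this is so if `C' / ⟨f g⟩` has finite cohomological dimension over `ℚ`.

By (4) the theorem holds for the torsion-free groups in the class `LinCls` of the groups such that in all
finitely generated subgroups the elements of infinite order have `LinC`. It contains all linear
groups over fields of any characteristic, the groups `Out(F_n)` and `Aut(F_n)`, the groups of
automorphisms of finitely generated residually torsion-free nilpotent groups, and the groups of germs of
diffeomorphisms and of automorphisms of varieties fixing a point; and it is closed under subgroups,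
overgroups of finite index, finite direct products, wreath products with finite groups, directed
unions, and extensions by finitely generated residually torsion-free nilpotent groups with trivial
centre, for example by free groups of finite rank `≥ 2` and fundamental groups of closed orientable
surfaces of genus `≥ 2`. The
Farrell-Jones conjecture is open for linear groups and, to our knowledge, for the groups `Out(F_n)`.

Idea of the proof. Higher dimensional cycles are reduced to traces by Fedosov's product. For traces one
evaluates functions of closed polygons in `G` on `e ⊗ ⋯ ⊗ e`. The Euler class of the centraliser as an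
extension by `g` is represented by the coboundary of a skew function `b` with `b(u, g v) = b(u, v) + 2`. The
evaluation of the Pfaffian of `b`, bordered by `1`, is a nonzero multiple of the trace at `g`, by a sign
reversing involution which uses rotations of polygons. For `LinC` the function `b` is
`tr (N (R_u R_v - R_v R_u))` for operators on a space of finite dimension (`N` the nilpotent part of
`g`), so its large Pfaffians are zero; in the case `CohC` the bordered Pfaffian is a coboundary.
-/

namespace Pool.Agent.Results.MP_28303a_al.CentralizerLaurent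

open Pool.Agent.V11187.DG (Cyc onI value wordE compT suppE)
open Pool.Agent.H416.LG (Good OnLinear)
open Pool.Agent.H416.WR (LinCls Closed Members)

universe u v w x y z

/-- The group `G × ℤ ^ r`; so `R[G × ℤ ^ r]` is the ring of Laurent polynomials in `r` variables over
`R[G]`. -/
abbrev Lau (G : Type w) (r : ℕ) : Type w := G × Multiplicative (Fin r → ℤ)

/-- For all coefficient rings `R`, all cycles of even dimension over `R[G]` and all idempotent
matrices over `R[G]`, the component of the value at the conjugacy class of `g` is a torsion element. -/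
def Torsion (G : Type w) [Group G] (g : G) : Prop :=
  ∀ (K : Type u) [CommRing K] (R : Type y) [Ring R] (Ω : Type v) [Ring Ω] [Algebra K Ω]
    (𝒜 : ℕ → Submodule K Ω) [GradedAlgebra 𝒜] (M : Type x) [AddCommGroup M] [Module K M]
    (δ : Ω →ₗ[K] Ω) (T : Ω →ₗ[K] M) (n : ℕ), Cyc (2 * n) 𝒜 δ T →
    ∀ ρ : MonoidAlgebra R G →+* Ω, (∀ a, ρ a ∈ 𝒜 0) →
    ∀ (d : ℕ) (e : Matrix (Fin d) (Fin d) (MonoidAlgebra R G)), e * e = e →
      ∃ k : ℤ, k ≠ 0 ∧ k • compT T (wordE δ ρ n e) g = 0

/-- For all coefficient rings `R`, all cycles of even dimension over `R[G]` with values in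
torsion-free groups and all idempotent matrices over `R[G]`, the value is its component at `1`. -/
def OnlyOne (G : Type w) [Group G] : Prop :=
  ∀ (K : Type u) [CommRing K] (R : Type y) [Ring R] (Ω : Type v) [Ring Ω] [Algebra K Ω]
    (𝒜 : ℕ → Submodule K Ω) [GradedAlgebra 𝒜] (M : Type x) [AddCommGroup M] [Module K M]
    (δ : Ω →ₗ[K] Ω) (T : Ω →ₗ[K] M) (n : ℕ), (∀ (k : ℤ) (z : M), k ≠ 0 → k • z = 0 → z = 0) →
    Cyc (2 * n) 𝒜 δ T → ∀ ρ : MonoidAlgebra R G →+* Ω, (∀ a, ρ a ∈ 𝒜 0) →
    ∀ (d : ℕ) (e : Matrix (Fin d) (Fin d) (MonoidAlgebra R G)), e * e = e →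
      onI δ T ρ n e = compT T (wordE δ ρ n e) 1

/-- The values of the cycle on the tuples of elements of `H` with product `1` lie in the module
generated by a finite set over a finitely generated subring of `K`. -/
def FinType {K : Type u} [Field K] {G : Type w} [Group G] {Ω : Type v} [Ring Ω] [Algebra K Ω]
    {M : Type x} [AddCommGroup M] [Module K M] (δ : Ω →ₗ[K] Ω) (T : Ω →ₗ[K] M) (N : ℕ)
    (ρ : MonoidAlgebra K G →ₐ[K] Ω) (H : Subgroup G) : Prop :=
  ∃ (s : Finset K) (F : Finset M), ∀ (a : H) (l : List H),
    l.length = N → a * l.prod = 1 → value δ T ρ a (l.map Subtype.val) ∈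
      Submodule.span (Algebra.adjoin ℤ (s : Set K)) (F : Set M)

/-- All cycles of dimension `2 n ≥ 2` with the property `FinType` vanish on `e`. -/
def Vanish (K : Type u) [Field K] {G : Type w} [Group G] {d : ℕ}
    (e : Matrix (Fin d) (Fin d) (MonoidAlgebra K G)) : Prop :=
  ∀ (Ω : Type v) [Ring Ω] [Algebra K Ω] (𝒜 : ℕ → Submodule K Ω) [GradedAlgebra 𝒜]
    (M : Type x) [AddCommGroup M] [Module K M] (δ : Ω →ₗ[K] Ω) (T : Ω →ₗ[K] M) (n : ℕ), 1 ≤ n →
    Cyc (2 * n) 𝒜 δ T → ∀ ρ : MonoidAlgebra K G →ₐ[K] Ω, (∀ a, ρ a ∈ 𝒜 0) →
    FinType δ T (2 * n) ρ (suppE e) → onI δ T (ρ : MonoidAlgebra K G →+* Ω) n e = 0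

/-- Let `s = r + 1 ≥ 1`, the case of `K_{-s}`. (1) The components at the elements `(g, l)` of `G × ℤ ^ s`
with `g` `Good` or `l ≠ 0` are torsion elements. (2) If all elements `g ≠ 1` of `G` are `Good` then the
values with arbitrary coefficient rings are the components at the unit element, and (3) for the
coefficient fields of characteristic zero they vanish in positive dimensions.
(4) An element `g` of `G` is `Good` if each finitely generated subgroup containing `g` is mapped to some
`GL_n(F)`, `F` a field, with image of `g` of infinite order, or if the image of `g` under a homomorphism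
to a group in the class `LinCls` has infinite order. The class `LinCls` has the closure properties
`Closed` and contains the groups `Members`. -/
theorem result (r : ℕ) :
    (∀ (G : Type w) [Group G] (g : G) (l : Multiplicative (Fin (r + 1) → ℤ)),
      Good.{w, z} G g ∨ l ≠ 1 → Torsion.{u, v, w, x, y} (Lau G (r + 1)) (g, l)) ∧
    (∀ (G : Type w) [Group G], (∀ g : G, g ≠ 1 → Good.{w, z} G g) →
      OnlyOne.{u, v, w, x, y} (Lau G (r + 1))) ∧
    (∀ (G : Type w) [Group G], (∀ g : G, g ≠ 1 → Good.{w, z} G g) →
      ∀ (K : Type u) [Field K] [CharZero K] (d : ℕ)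
        (e : Matrix (Fin d) (Fin d) (MonoidAlgebra K (Lau G (r + 1)))), e * e = e →
        Vanish.{u, v, w, x} K e) ∧
    (∀ (G : Type w) [Group G] (g : G), OnLinear.{w, z} G g → Good.{w, z} G g) ∧
    (∀ (G G' : Type w) [Group G] [Group G'] (f : G →* G') (g : G), LinCls.{w, w} G' →
      ¬ IsOfFinOrder (f g) → Good.{w, w} G g) ∧ Closed.{w} ∧ Members.{w} := by
  refine ⟨?_, ?_, ?_, fun G _ g hg => Good.of_linear hg,
    fun G G' _ _ f g h hg => Pool.Agent.H416.WR.good_of_hom f g h hg,
    Pool.Agent.H416.WR.closed, Pool.Agent.H416.WR.members⟩
  · intro G _ g l hg K _ R _ Ω _ _ 𝒜 _ M _ _ δ T n hc ρ hρ d e he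
    exact Pool.Agent.H416.LG.GE.torE
      (Pool.Agent.H416.LG.Good.van (Good.prod (p := ((g, l) : Lau G (r + 1))) hg)) hc hρ e he
  · intro G _ hG K _ R _ Ω _ _ 𝒜 _ M _ _ δ T n hM hc ρ hρ d e he
    exact Pool.Agent.H416.LG.GE.onI_one (fun g hg => (Good.prod_all hG g hg).van) hM hc hρ e he
  · intro G _ hG K _ _ d e he Ω _ _ 𝒜 _ M _ _ δ T n hn hc ρ hρ hF
    obtain ⟨s, F, hF⟩ := hF
    exact Pool.Agent.H416.LG.GE.onI_zero (fun g hg => Good.prod_all hG g hg) e he 𝒜 δ T n hn hc ρ
      hρ s F hF

end Pool.Agent.Results.MP_28303a_al.CentralizerLaurent
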