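import Pool.Agent.H751.CH.Hier

/-!
# Cubical hierarchies of any length and dimension

`PartialCube V H`: `H` is a family of subsets of `V`, the half-spaces, closed under complements, such
that two points are separated by finitely many half-spaces, and such that for `x ≠ y` there is a
point `z` which is separated from `x` by one wall `{h, hᶜ}` only, where `h` separates `x` and `y`. So
the graph of the pairs of points that are separated by exactly one wall is a partial cube (an
isometric subgraph of a cube, of any dimension). Examples are the vertices and half-spaces of a CAT(0)
cube complex of any, possibly infinite, dimension, which need not be locally finite; the elements and
the roots of a Coxeter group; the chambers and half-spaces of a locally finite family of hyperplanes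
in the hyperbolic or the Euclidean space. `Crosses a b`: all four intersections of `a`, `aᶜ` with `b`,
`bᶜ` are nonempty.

`TreeClosed C D`: the classes of groups `C`, `D` are closed under isomorphisms, `C` contains all groups
all of whose finitely generated subgroups are in `C`, and all groups which act without inversions on
trees with vertex stabilizers in `C` and edge stabilizers in `D` (`TreeAct C D`).

Let the group `G` act on `V` such that `H` is invariant, no half-space crosses any of its translates
and no half-space is mapped to its complement. If the subgroups of the stabilizers of the points are
in `C` and the subgroups of the stabilizers of the half-spaces are in `D`, then `G` is in `C`. The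
number of the orbits of half-spaces is arbitrary, and half-spaces of different orbits can cross.

For negative K-groups let `C` be the class of the groups `G` such that `K_n(RG) = 0` for all regular
rings `R` and all `n ≤ -1`, and let `D` be the class of the groups in `C` such that `RG` is regular
coherent for all regular rings `R`, for instance the free groups, the surface groups, the polycyclic
groups which are torsion-free, and their iterated amalgams along polycyclic groups. By Waldhausen's
theorem (extended to negative degrees) the pair `C`, `D` is tree closed.

Outline of the proof. For a finitely generated subgroup `L` and a base point `o` all but finitely many
`L`-orbits of walls consist of walls that do not separate the orbit of `o`. Let `B` be the family of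
the latter walls, and add the other orbits one by one. The stabilizer of a class of points that are
not separated by the walls of a family `A` acts on the tree dual to the traces of the walls of a new
orbit, with the class stabilizers of the larger family as vertex stabilizers. At the end all
walls are used, and the classes are points. The first group is `L`, by the choice of `B`.
-/

set_option autoImplicit false

namespace Pool.Agent.Results.MP_28303a_al.CubicalHierarchies

open Pool.Agent.H751.CH

open Pointwise

theorem result (C D : ∀ (K : Type) [Group K], Prop) (hCD : TreeClosed C D) (G V : Type) [Group G]
    [MulAction G V] [Nonempty V] (H : Set (Set V)) (hH : PartialCube V H)
    (hinv : ∀ g : G, ∀ h ∈ H, g • h ∈ H)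
    (hcross : ∀ g : G, ∀ h ∈ H, ¬ Crosses h (g • h))
    (hno : ∀ g : G, ∀ h ∈ H, g • h ≠ hᶜ)
    (hC : ∀ x : V, ∀ K : Subgroup G, K ≤ MulAction.stabilizer G x → C K)
    (hD : ∀ h ∈ H, ∀ K : Subgroup G, K ≤ MulAction.stabilizer G h → D K) : C G :=
  cubical_main hCD hH hinv hcross hno hC hD

end Pool.Agent.Results.MP_28303a_al.CubicalHierarchies
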